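import Pool.Agent.T9h87.Lin.Spec

/-!
# Embedding into three-space
-/

set_option autoImplicit false

namespace Pool.Agent.T9h18.Lin

open Finset
open Pool.Agent.T9h87.Lin
open scoped Classical

variable {W : Type} [Fintype W]

/-- the numbers of the vertices -/
noncomputable def z (v : W) : ℝ := ((Fintype.equivFin W v : Fin _) : ℕ)

theorem z_inj : Function.Injective (z (W := W)) := by
  intro v w h
  unfold z at h
  have h1 : ((Fintype.equivFin W v : Fin _) : ℕ) = ((Fintype.equivFin W w : Fin _) : ℕ) := by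
    exact_mod_cast h
  exact (Fintype.equivFin W).injective (Fin.ext h1)

theorem z_nonneg (v : W) : 0 ≤ z v := Nat.cast_nonneg _

/-- the mean -/
noncomputable def S1 (x : W → ℝ) : ℝ := ∑ v, x v * z v

/-- the second moment -/
noncomputable def S2 (x : W → ℝ) : ℝ := ∑ v, x v * z v ^ 2

/-- twice the variance, only members of `T` -/
noncomputable def VT (T : Finset W) (x : W → ℝ) : ℝ :=
  ∑ a ∈ T, ∑ b ∈ T, x a * x b * (z a - z b) ^ 2

/-- the third coordinate -/
noncomputable def CC (H : Finset (Finset W)) (x : W → ℝ) : ℝ := ∑ T ∈ H, z T * VT T x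

theorem VT_univ (x : W → ℝ) : VT univ x = 2 * ((∑ v, x v) * S2 x - S1 x ^ 2) := by
  have h1 : VT univ x = ∑ a : W, ∑ b : W, (x a * z a ^ 2 * x b + x a * (x b * z b ^ 2) -
      2 * (x a * z a * (x b * z b))) := by
    unfold VT
    exact Finset.sum_congr rfl fun a _ => Finset.sum_congr rfl fun b _ => by ring
  rw [h1]
  simp only [Finset.sum_sub_distrib, Finset.sum_add_distrib, ← Finset.mul_sum, ← Finset.sum_mul]
  unfold S1 S2
  ring

theorem VT_supp {T : Finset W} {x : W → ℝ} (h : ∀ v, v ∉ T → x v = 0) : VT T x = VT univ x := by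
  unfold VT
  have h2 : ∀ a : W, ∑ b ∈ T, x a * x b * (z a - z b) ^ 2 =
      ∑ b, x a * x b * (z a - z b) ^ 2 := fun a =>
    Finset.sum_subset (Finset.subset_univ T) fun b _ hb => by rw [h b hb]; ring
  rw [Finset.sum_congr rfl fun a _ => h2 a]
  exact Finset.sum_subset (Finset.subset_univ T) fun a _ ha =>
    Finset.sum_eq_zero fun b _ => by rw [h a ha]; ring

/-- the points of the first kind -/
structure TW (H : Finset (Finset W)) (x : W → ℝ) : Prop where
  nonneg : ∀ v, 0 ≤ x v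
  sum : ∑ v, x v = 1
  form : (∃ v, ∀ w, w ≠ v → x w = 0) ∨ ∃ T ∈ H, ∀ w, w ∉ T → x w = 0

theorem VT_eq_zero {T : Finset W} {x : W → ℝ} (h : ∀ a ∈ T, ∀ b ∈ T, a ≠ b → x a * x b = 0) :
    VT T x = 0 := by
  refine Finset.sum_eq_zero fun a ha => Finset.sum_eq_zero fun b hb => ?_
  by_cases e : a = b
  · subst e; ring
  · rw [h a ha b hb e]; ring

theorem prod_eq_zero_of_VT {x : W → ℝ} (h0 : ∀ v, 0 ≤ x v) (h : VT univ x = 0) :
    ∀ a b : W, a ≠ b → x a * x b = 0 := by
  intro a b hab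
  have h1 : ∀ a ∈ (univ : Finset W), 0 ≤ ∑ b, x a * x b * (z a - z b) ^ 2 := fun a _ =>
    Finset.sum_nonneg fun b _ => mul_nonneg (mul_nonneg (h0 a) (h0 b)) (sq_nonneg _)
  have h2 := (Finset.sum_eq_zero_iff_of_nonneg h1).1 h a (mem_univ a)
  have h3 := (Finset.sum_eq_zero_iff_of_nonneg fun b _ =>
    mul_nonneg (mul_nonneg (h0 a) (h0 b)) (sq_nonneg _)).1 h2 b (mem_univ b)
  rcases mul_eq_zero.1 h3 with h4 | h4
  · exact h4
  · have : z a = z b := by
      have := pow_eq_zero_iff (two_ne_zero) |>.1 h4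
      linarith
    exact absurd (z_inj this) hab

/-- zero variance: a vertex -/
theorem vertex_of_VT {x : W → ℝ} (h0 : ∀ v, 0 ≤ x v) (h1 : ∑ v, x v = 1)
    (h : VT univ x = 0) : ∃ v, ∀ w, w ≠ v → x w = 0 := by
  have h2 : ∃ v, x v ≠ 0 := by
    by_contra hc
    push Not at hc
    rw [Finset.sum_eq_zero fun v _ => hc v] at h1
    exact zero_ne_one h1
  obtain ⟨v, hv⟩ := h2
  refine ⟨v, fun w hw => ?_⟩
  have := prod_eq_zero_of_VT h0 h w v hw
  exact (mul_eq_zero.1 this).resolve_right hv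

theorem vertex_eq {x : W → ℝ} (h1 : ∑ v, x v = 1) {v : W} (h : ∀ w, w ≠ v → x w = 0) :
    x v = 1 ∧ S1 x = z v := by
  have h2 : ∑ w, x w = x v := Finset.sum_eq_single v (fun w _ hw => h w hw) (by simp)
  have h3 : x v = 1 := by rw [← h2, h1]
  refine ⟨h3, ?_⟩
  have h4 : S1 x = x v * z v := Finset.sum_eq_single v (fun w _ hw => by rw [h w hw]; ring) (by simp)
  rw [h4, h3, one_mul]

theorem VT_of_vertex {x : W → ℝ} {v : W} (h : ∀ w, w ≠ v → x w = 0) (T : Finset W) :
    VT T x = 0 := by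
  refine VT_eq_zero fun a _ b _ hab => ?_
  by_cases ha : a = v
  · rw [h b (by rintro rfl; exact hab ha), mul_zero]
  · rw [h a ha, zero_mul]

theorem CC_eq {H : Finset (Finset W)} (hH : ∀ T ∈ H, ∀ T' ∈ H, T ≠ T' → (T ∩ T').card ≤ 1)
    {x : W → ℝ} {T : Finset W} (hT : T ∈ H) (h : ∀ w, w ∉ T → x w = 0) :
    CC H x = z T * VT univ x := by
  rw [← VT_supp h]
  refine Finset.sum_eq_single T (fun T' hT' hne => ?_) (fun h => absurd hT h)
  rw [VT_eq_zero, mul_zero]
  intro a ha b hb hab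
  by_contra hc
  have h1 : a ∈ T := by
    by_contra h2
    exact hc (by rw [h a h2, zero_mul])
  have h2 : b ∈ T := by
    by_contra h2
    exact hc (by rw [h b h2, mul_zero])
  have h3 := hH T' hT' T hT hne
  have h4 : ({a, b} : Finset W) ⊆ T' ∩ T := by
    intro w hw
    rw [Finset.mem_insert, Finset.mem_singleton] at hw
    rcases hw with rfl | rfl
    · exact Finset.mem_inter.2 ⟨ha, h1⟩
    · exact Finset.mem_inter.2 ⟨hb, h2⟩
  have h5 := Finset.card_le_card h4
  rw [Finset.card_pair hab] at h5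
  omega

/-- injectivity on the points of the first kind -/
theorem TW_inj {H : Finset (Finset W)} (h3 : ∀ T ∈ H, T.card = 3)
    (hH : ∀ T ∈ H, ∀ T' ∈ H, T ≠ T' → (T ∩ T').card ≤ 1) {x y : W → ℝ} (hx : TW H x)
    (hy : TW H y) (e1 : S1 x = S1 y) (e2 : S2 x - S1 x ^ 2 = S2 y - S1 y ^ 2)
    (e3 : CC H x = CC H y) : x = y := by
  have vx : VT univ x = 2 * (S2 x - S1 x ^ 2) := by rw [VT_univ, hx.sum, one_mul]
  have vy : VT univ y = 2 * (S2 y - S1 y ^ 2) := by rw [VT_univ, hy.sum, one_mul]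
  have vxy : VT univ x = VT univ y := by rw [vx, vy, e2]
  by_cases h0 : VT univ x = 0
  · obtain ⟨v, hv⟩ := vertex_of_VT hx.nonneg hx.sum h0
    obtain ⟨w, hw⟩ := vertex_of_VT hy.nonneg hy.sum (vxy ▸ h0)
    obtain ⟨a1, a2⟩ := vertex_eq hx.sum hv
    obtain ⟨b1, b2⟩ := vertex_eq hy.sum hw
    have hvw : v = w := z_inj (by rw [← a2, ← b2, e1])
    subst hvw
    funext u
    by_cases hu : u = v
    · rw [hu, a1, b1]
    · rw [hv u hu, hw u hu]
  · obtain ⟨T, hT, hxT⟩ : ∃ T ∈ H, ∀ w, w ∉ T → x w = 0 := by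
      rcases hx.form with ⟨v, hv⟩ | h
      · exact absurd (VT_of_vertex hv _) h0
      · exact h
    obtain ⟨T', hT', hyT⟩ : ∃ T ∈ H, ∀ w, w ∉ T → y w = 0 := by
      rcases hy.form with ⟨v, hv⟩ | h
      · exact absurd (vxy.trans (VT_of_vertex hv _)) h0
      · exact h
    rw [CC_eq hH hT hxT, CC_eq hH hT' hyT, ← vxy] at e3
    have hTT : T = T' := z_inj (mul_right_cancel₀ h0 e3)
    subst hTT
    have e4 : S2 x = S2 y := by rw [e1] at e2; linarith
    funext v
    by_cases hv : v ∈ T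
    · have hc : (T.erase v).card = 2 := by rw [Finset.card_erase_of_mem hv, h3 T hT]
      obtain ⟨p, q, hpq, he⟩ := Finset.card_eq_two.1 hc
      have hp : p ≠ v := (Finset.mem_erase.1 (he ▸ Finset.mem_insert_self p {q})).1
      have hq : q ≠ v := (Finset.mem_erase.1
        (he ▸ Finset.mem_insert_of_mem (Finset.mem_singleton_self q))).1
      have h5 : ∑ w, (x w - y w) * ((z w - z p) * (z w - z q)) = 0 := by
        have : ∀ w : W, (x w - y w) * ((z w - z p) * (z w - z q)) =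
            (x w * z w ^ 2 - y w * z w ^ 2) - (z p + z q) * (x w * z w - y w * z w) +
            z p * z q * (x w - y w) := fun w => by ring
        simp only [this, Finset.sum_add_distrib, Finset.sum_sub_distrib, ← Finset.mul_sum]
        have a1 : ∑ w, x w * z w ^ 2 = ∑ w, y w * z w ^ 2 := e4
        have a2 : ∑ w, x w * z w = ∑ w, y w * z w := e1
        rw [a1, a2, hx.sum, hy.sum]
        ring
      have h6 : ∑ w, (x w - y w) * ((z w - z p) * (z w - z q)) =
          (x v - y v) * ((z v - z p) * (z v - z q)) := by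
        refine Finset.sum_eq_single v (fun w _ hw => ?_) (by simp)
        by_cases h7 : w ∈ T
        · have h8 : w ∈ T.erase v := Finset.mem_erase.2 ⟨hw, h7⟩
          rw [he, Finset.mem_insert, Finset.mem_singleton] at h8
          rcases h8 with rfl | rfl <;> ring
        · rw [hxT w h7, hyT w h7]; ring
      rw [h5] at h6
      have h7 : z v - z p ≠ 0 := sub_ne_zero.2 fun h => hp (z_inj h).symm
      have h8 : z v - z q ≠ 0 := sub_ne_zero.2 fun h => hq (z_inj h).symm
      have h9 := (mul_eq_zero.1 h6.symm).resolve_right (mul_ne_zero h7 h8)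
      linarith
    · rw [hxT v hv, hyT v hv]

/-- the map -/
noncomputable def FF (H : Finset (Finset W)) (x : W ⊕ Fin 3 × Bool → ℝ) : E3 :=
  !₂[S1 (fun v => x (Sum.inl v)) + (x (Sum.inr (0, true)) - x (Sum.inr (0, false))) -
      10 * ∑ p, x (Sum.inr p),
    S2 (fun v => x (Sum.inl v)) - S1 (fun v => x (Sum.inl v)) ^ 2 +
      (x (Sum.inr (1, true)) - x (Sum.inr (1, false))),
    CC H (fun v => x (Sum.inl v)) + (x (Sum.inr (2, true)) - x (Sum.inr (2, false)))]

theorem FF_cont (H : Finset (Finset W)) : Continuous (FF H) := by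
  have h1 : Continuous fun x : W ⊕ Fin 3 × Bool → ℝ => S1 (fun v => x (Sum.inl v)) := by
    unfold S1; fun_prop
  have h2 : Continuous fun x : W ⊕ Fin 3 × Bool → ℝ => S2 (fun v => x (Sum.inl v)) := by
    unfold S2; fun_prop
  have h3 : Continuous fun x : W ⊕ Fin 3 × Bool → ℝ => CC H (fun v => x (Sum.inl v)) := by
    unfold CC VT; fun_prop
  unfold FF
  refine (PiLp.continuous_toLp 2 _).comp (continuous_pi fun i => ?_)
  fin_cases i
  · simp only [Fin.zero_eta, Matrix.cons_val_zero]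
    fun_prop
  · simp only [Fin.mk_one, Matrix.cons_val_one, Matrix.cons_val_zero]
    fun_prop
  · simp only [Fin.reduceFinMk, Matrix.cons_val]
    fun_prop

/-- the points of the complex -/
theorem mem_KK {H : Finset (Finset W)} {x : W ⊕ Fin 3 × Bool → ℝ} (hx : x ∈ KK (Mx H)) :
    (∀ i, 0 ≤ x i) ∧ ((TW H (fun v => x (Sum.inl v)) ∧ ∀ p, x (Sum.inr p) = 0) ∨
      ((∀ v, x (Sum.inl v) = 0) ∧ ∑ p, x (Sum.inr p) = 1 ∧
        ∀ i, x (Sum.inr (i, true)) = 0 ∨ x (Sum.inr (i, false)) = 0)) := by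
  obtain ⟨s, hs, h0, h1, h2⟩ := hx
  refine ⟨h0, ?_⟩
  rw [Fintype.sum_sum_type] at h1
  obtain ⟨_, hs1, hs⟩ := Finset.mem_filter.1 hs
  rcases hs with hs | ⟨T, hT, hs⟩ | ⟨hs, hs'⟩
  · obtain ⟨i, rfl⟩ := Finset.card_eq_one.1 hs
    cases i with
    | inl v =>
      have h3 : ∀ p, x (Sum.inr p) = 0 := fun p => h2 _ (by simp)
      refine .inl ⟨⟨fun v => h0 _, ?_, .inl ⟨v, fun w hw => h2 _ (by simpa using hw)⟩⟩, h3⟩
      rw [← h1]
      simp [h3]
    | inr p =>
      have h3 : ∀ v, x (Sum.inl v) = 0 := fun p => h2 _ (by simp)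
      refine .inr ⟨h3, by rw [← h1]; simp [h3], fun i => ?_⟩
      by_cases h : p = (i, true)
      · right
        refine h2 _ ?_
        simp [h]
      · left
        refine h2 _ ?_
        simpa using fun e => h e.symm
  · have h3 : ∀ p, x (Sum.inr p) = 0 := fun p => h2 _ fun h => by
      have := hs h
      simp at this
    refine .inl ⟨⟨fun v => h0 _, ?_, .inr ⟨T, hT, fun w hw => h2 _ fun h => ?_⟩⟩, h3⟩
    · rw [← h1]
      simp [h3]
    · have := hs h
      simp at this
      exact hw this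
  · have h3 : ∀ v, x (Sum.inl v) = 0 := fun v => h2 _ fun h => by
      obtain ⟨y, hy⟩ := hs _ h
      exact absurd hy (by simp)
    refine .inr ⟨h3, by rw [← h1]; simp [h3], fun i => ?_⟩
    by_cases h : Sum.inr (i, true) ∈ s
    · right
      exact h2 _ fun h' => hs' i ⟨h, h'⟩
    · exact .inl (h2 _ h)

theorem bd_oct {x : W ⊕ Fin 3 × Bool → ℝ} (h0 : ∀ i, 0 ≤ x i) (h1 : ∑ p, x (Sum.inr p) = 1) :
    x (Sum.inr (0, true)) ≤ 1 := by
  rw [← h1]
  exact Finset.single_le_sum (f := fun p => x (Sum.inr p)) (fun p _ => h0 _) (mem_univ _)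

theorem zero_fun {x : W ⊕ Fin 3 × Bool → ℝ} (h : ∀ v, x (Sum.inl v) = 0) :
    (fun v => x (Sum.inl v)) = fun _ : W => (0 : ℝ) := funext h

theorem FF_inj (H : Finset (Finset W)) (h3 : ∀ T ∈ H, T.card = 3)
    (hH : ∀ T ∈ H, ∀ T' ∈ H, T ≠ T' → (T ∩ T').card ≤ 1) : Set.InjOn (FF H) (KK (Mx H)) := by
  intro x hx y hy h
  have e0 : FF H x 0 = FF H y 0 := by rw [h]
  have e1 : FF H x 1 = FF H y 1 := by rw [h]
  have e2 : FF H x 2 = FF H y 2 := by rw [h]
  simp only [FF, PiLp.toLp_apply, Matrix.cons_val_zero, Matrix.cons_val_one, Matrix.cons_val]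
    at e0 e1 e2
  obtain ⟨x0, hx⟩ := mem_KK hx
  obtain ⟨y0, hy⟩ := mem_KK hy
  have pos : ∀ {x : W ⊕ Fin 3 × Bool → ℝ}, (∀ i, 0 ≤ x i) → 0 ≤ S1 (fun v => x (Sum.inl v)) :=
    fun h => Finset.sum_nonneg fun v _ => mul_nonneg (h _) (z_nonneg v)
  have zS1 : S1 (fun _ : W => (0 : ℝ)) = 0 := by simp [S1]
  have zS2 : S2 (fun _ : W => (0 : ℝ)) = 0 := by simp [S2]
  have zCC : CC H (fun _ : W => (0 : ℝ)) = 0 := by simp [CC, VT]
  rcases hx with ⟨hx, px⟩ | ⟨hx, sx, tx⟩ <;> rcases hy with ⟨hy, py⟩ | ⟨hy, sy, ty⟩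
  · simp only [px, py, sub_zero, add_zero, Finset.sum_const_zero, mul_zero] at e0 e1 e2
    have := TW_inj h3 hH hx hy e0 e1 e2
    funext i
    cases i with
    | inl v => exact congrFun this v
    | inr p => rw [px, py]
  · exfalso
    rw [sy, zero_fun hy, zS1] at e0
    simp only [px, Finset.sum_const_zero] at e0
    have := bd_oct y0 sy
    have := y0 (Sum.inr (0, false))
    have := pos x0
    linarith
  · exfalso
    rw [sx, zero_fun hx, zS1] at e0
    simp only [py, Finset.sum_const_zero] at e0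
    have := bd_oct x0 sx
    have := x0 (Sum.inr (0, false))
    have := pos y0
    linarith
  · rw [zero_fun hx, zero_fun hy] at e0 e1 e2
    rw [sx, sy] at e0
    have key : ∀ i : Fin 3, x (Sum.inr (i, true)) - x (Sum.inr (i, false)) =
        y (Sum.inr (i, true)) - y (Sum.inr (i, false)) := by
      intro i
      fin_cases i
      · simp only [Fin.zero_eta]
        linarith
      · simp only [Fin.mk_one]
        linarith
      · simp only [Fin.reduceFinMk]
        linarith
    funext i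
    cases i with
    | inl v => rw [hx, hy]
    | inr p =>
      obtain ⟨i, b⟩ := p
      have k := key i
      have a1 := x0 (Sum.inr (i, true))
      have a2 := x0 (Sum.inr (i, false))
      have b1 := y0 (Sum.inr (i, true))
      have b2 := y0 (Sum.inr (i, false))
      rcases tx i with h1 | h1 <;> rcases ty i with h2 | h2 <;> cases b <;> linarith

/-- (H) -/
theorem stTop : StTop := fun W _ H h3 hH => ⟨FF H, FF_cont H, FF_inj H h3 hH⟩

end Pool.Agent.T9h18.Lin
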